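import Mathlib

set_option autoImplicit false

namespace Pool.Agent.Helper79.NP

/-- (L3) Two commuting elements whose adjoint maps have no nilpotent part lie in a common Cartan
subalgebra. -/
theorem exists_cartan {K L : Type*} [Field K] [Infinite K] [LieRing L] [LieAlgebra K L]
    [FiniteDimensional K L] {x y : L} (hxy : ⁅x, y⁆ = 0)
    (hx : ∀ z : L, ⁅x, ⁅x, z⁆⁆ = 0 → ⁅x, z⁆ = 0) (hy : ∀ z : L, ⁅y, ⁅y, z⁆⁆ = 0 → ⁅y, z⁆ = 0) :
    ∃ H : LieSubalgebra K L, H.IsCartanSubalgebra ∧ x ∈ H ∧ y ∈ H := by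
  let C : LieSubalgebra K L :=
    { carrier := {z | ⁅x, z⁆ = 0 ∧ ⁅y, z⁆ = 0}
      zero_mem' := ⟨lie_zero _, lie_zero _⟩
      add_mem' := fun {a b} ha hb => ⟨by rw [lie_add, ha.1, hb.1, add_zero],
        by rw [lie_add, ha.2, hb.2, add_zero]⟩
      smul_mem' := fun c a ha => ⟨by rw [lie_smul, ha.1, smul_zero],
        by rw [lie_smul, ha.2, smul_zero]⟩
      lie_mem' := fun {a b} ha hb => ⟨by rw [leibniz_lie, ha.1, hb.1, zero_lie, lie_zero, add_zero],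
        by rw [leibniz_lie, ha.2, hb.2, zero_lie, lie_zero, add_zero]⟩ }
  have hmemC : ∀ z : L, z ∈ C ↔ ⁅x, z⁆ = 0 ∧ ⁅y, z⁆ = 0 := fun z => Iff.rfl
  have hyx : ⁅y, x⁆ = 0 := by rw [← lie_skew, hxy, neg_zero]
  have hxC : x ∈ C := (hmemC x).mpr ⟨lie_self x, hyx⟩
  have hyC : y ∈ C := (hmemC y).mpr ⟨hxy, lie_self y⟩
  obtain ⟨c, hc⟩ := LieAlgebra.exists_isCartanSubalgebra_engel K C
  set H' : LieSubalgebra K C := LieSubalgebra.engel K c with hH'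
  -- central elements of `C` lie in `H'`
  have hcen : ∀ z : C, (∀ w : C, ⁅z, w⁆ = 0) → z ∈ H' := by
    intro z hz
    have h1 : z ∈ H'.normalizer := by
      rw [LieSubalgebra.mem_normalizer_iff]
      intro w _
      rw [hz w]
      exact H'.zero_mem
    rwa [hc.self_normalizing] at h1
  have hxH' : (⟨x, hxC⟩ : C) ∈ H' := hcen _ fun w => by
    apply Subtype.ext
    exact ((hmemC _).mp w.2).1
  have hyH' : (⟨y, hyC⟩ : C) ∈ H' := hcen _ fun w => by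
    apply Subtype.ext
    exact ((hmemC _).mp w.2).2
  let f : H' →ₗ⁅K⁆ L := C.incl.comp H'.incl
  have hf : Function.Injective f := by
    intro a b hab
    exact Subtype.ext (Subtype.ext hab)
  have hmem : ∀ z : L, z ∈ f.range ↔ ∃ hz : z ∈ C, (⟨z, hz⟩ : C) ∈ H' := by
    intro z
    rw [LieHom.mem_range]
    constructor
    · rintro ⟨w, rfl⟩
      exact ⟨w.1.2, w.2⟩
    · rintro ⟨hz, hz'⟩
      exact ⟨⟨⟨z, hz⟩, hz'⟩, rfl⟩
  refine ⟨f.range, ⟨?_, ?_⟩, (hmem x).mpr ⟨hxC, hxH'⟩, (hmem y).mpr ⟨hyC, hyH'⟩⟩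
  · have h1 : LieRing.IsNilpotent H' := hc.nilpotent
    exact (LieEquiv.nilpotent_iff_equiv_nilpotent (LieHom.equivRangeOfInjective f hf)).mp h1
  · refine le_antisymm ?_ f.range.le_normalizer
    intro z hz
    rw [LieSubalgebra.mem_normalizer_iff'] at hz
    have key : ∀ w : L, w ∈ f.range → (∀ z : L, ⁅w, ⁅w, z⁆⁆ = 0 → ⁅w, z⁆ = 0) →
        (∀ v ∈ C, ⁅w, v⁆ = 0) → ⁅w, z⁆ = 0 := by
      intro w hw hw' hwC
      refine hw' z ?_
      obtain ⟨h1, -⟩ := (hmem _).mp (hz w hw)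
      exact hwC _ h1
    have hzC : z ∈ C := (hmemC z).mpr
      ⟨key x ((hmem x).mpr ⟨hxC, hxH'⟩) hx fun v hv => ((hmemC v).mp hv).1,
        key y ((hmem y).mpr ⟨hyC, hyH'⟩) hy fun v hv => ((hmemC v).mp hv).2⟩
    refine (hmem z).mpr ⟨hzC, ?_⟩
    rw [← hc.self_normalizing, LieSubalgebra.mem_normalizer_iff']
    intro w hw
    obtain ⟨h1, h2⟩ := (hmem _).mp (hz w.1 ((hmem _).mpr ⟨w.2, hw⟩))
    exact h2

end Pool.Agent.Helper79.NP
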