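import Pool.Agent.Helper98.NP.LieDefs

set_option autoImplicit false

namespace Pool.Agent.Helper79.NP

open Pool.Agent.Helper98.NP

variable {K V : Type*} [Field K] [CharZero K] [AddCommGroup V] [Module K V]
  [FiniteDimensional K V]

omit [FiniteDimensional K V] in
lemma eig_indep (h : Module.End K V) :
    iSupIndep fun n : ℤ => Module.End.eigenspace h (n : K) :=
  (Module.End.eigenspaces_iSupIndep h).comp (Int.cast_injective (α := K))

omit [FiniteDimensional K V] in
lemma eig_internal {h : Module.End K V} (hint : Integral h) :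
    DirectSum.IsInternal fun n : ℤ => Module.End.eigenspace h (n : K) :=
  DirectSum.isInternal_submodule_of_iSupIndep_of_iSup_eq_top (eig_indep h) hint

/-- (L0) the trace of the square of an endomorphism with integer eigenvalues, modulo 4. -/
theorem trace_sq {h : Module.End K V} (hint : Integral h) :
    ∃ k : ℤ, LinearMap.trace K V (h * h) = ((Module.finrank K (oddPart h) : ℤ) + 4 * k : ℤ) := by
  classical
  set A : ℤ → Submodule K V := fun n => Module.End.eigenspace h (n : K) with hA
  have hindep := eig_indep h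
  have hsupA : ⨆ n, A n = ⊤ := hint
  set O : Submodule K V := ⨆ n ∈ {n : ℤ | Odd n}, A n with hO
  set E : Submodule K V := ⨆ n ∈ {n : ℤ | Odd n}ᶜ, A n with hE
  have hOE : oddPart h = O := rfl
  have hcompl : IsCompl O E := by
    refine ⟨hindep.disjoint_biSup_biSup disjoint_compl_right, ?_⟩
    rw [codisjoint_iff, eq_top_iff, ← hsupA]
    refine iSup_le fun n => ?_
    by_cases hn : Odd n
    · exact (le_iSup₂_of_le (f := fun n (_ : n ∈ {n : ℤ | Odd n}) => A n) n hn le_rfl).trans
        le_sup_left
    · exact (le_iSup₂_of_le (f := fun n (_ : n ∈ {n : ℤ | Odd n}ᶜ) => A n) n hn le_rfl).trans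
        le_sup_right
  set p : V →ₗ[K] V := O.subtype ∘ₗ Submodule.projectionOnto O E hcompl with hp
  have hpO : ∀ v ∈ O, p v = v := by
    intro v hv
    simp only [hp, LinearMap.comp_apply, Submodule.subtype_apply]
    exact congrArg Subtype.val (Submodule.projectionOnto_apply_left hcompl ⟨v, hv⟩)
  have hpE : ∀ v ∈ E, p v = 0 := by
    intro v hv
    simp only [hp, LinearMap.comp_apply, Submodule.subtype_apply]
    rw [(Submodule.projectionOnto_apply_eq_zero_iff hcompl).mpr hv]
    rfl
  have hproj : LinearMap.IsProj O p := ⟨fun v => Submodule.coe_mem _, hpO⟩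
  have htp : LinearMap.trace K V p = (Module.finrank K O : K) := hproj.trace
  have hAO : ∀ n : ℤ, Odd n → A n ≤ O := fun n hn =>
    le_iSup₂_of_le (f := fun n (_ : n ∈ {n : ℤ | Odd n}) => A n) n hn le_rfl
  have hAE : ∀ n : ℤ, ¬ Odd n → A n ≤ E := fun n hn =>
    le_iSup₂_of_le (f := fun n (_ : n ∈ {n : ℤ | Odd n}ᶜ) => A n) n hn le_rfl
  set f : V →ₗ[K] V := h * h - p with hf
  have hact : ∀ n : ℤ, ∃ k : ℤ, ∀ v ∈ A n, f v = ((4 * k : ℤ) : K) • v := by
    intro n
    by_cases hn : Odd n
    · obtain ⟨k, hk⟩ := hn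
      refine ⟨k * (k + 1), fun v hv => ?_⟩
      have h1 : h v = (n : K) • v := Module.End.mem_eigenspace_iff.mp hv
      have h2 : p v = v := hpO v (hAO n ⟨k, hk⟩ hv)
      simp only [hf, LinearMap.sub_apply, Module.End.mul_apply, h1, map_smul, h2, hk]
      push_cast
      module
    · rw [Int.not_odd_iff_even] at hn
      obtain ⟨k, hk⟩ := hn
      refine ⟨k ^ 2, fun v hv => ?_⟩
      have h1 : h v = (n : K) • v := Module.End.mem_eigenspace_iff.mp hv
      have h2 : p v = 0 := hpE v (hAE n (by rw [Int.not_odd_iff_even]; exact ⟨k, hk⟩) hv)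
      simp only [hf, LinearMap.sub_apply, Module.End.mul_apply, h1, map_smul, h2, hk]
      push_cast
      module
  choose k hk using hact
  have hmaps : ∀ n, Set.MapsTo f (A n) (A n) := by
    intro n v hv
    rw [hk n v hv]
    exact (A n).smul_mem _ hv
  have hfin : {n | A n ≠ ⊥}.Finite := WellFoundedGT.finite_ne_bot_of_iSupIndep hindep
  have htr := LinearMap.trace_eq_sum_trace_restrict' (eig_internal hint) hfin hmaps
  have hrestr : ∀ n, LinearMap.trace K (A n) (f.restrict (hmaps n)) =
      ((4 * (k n * Module.finrank K (A n)) : ℤ) : K) := by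
    intro n
    have h1 : f.restrict (hmaps n) = ((4 * k n : ℤ) : K) • (1 : Module.End K (A n)) := by
      ext v
      exact hk n v v.2
    rw [h1, map_smul, LinearMap.trace_one, smul_eq_mul]
    push_cast
    ring
  refine ⟨∑ n ∈ hfin.toFinset, k n * Module.finrank K (A n), ?_⟩
  have h1 : LinearMap.trace K V (h * h) = LinearMap.trace K V f + LinearMap.trace K V p := by
    rw [hf, map_sub, sub_add_cancel]
  rw [h1, htr, htp, hOE, Finset.sum_congr rfl fun n _ => hrestr n]
  push_cast
  rw [Finset.mul_sum]
  ring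

end Pool.Agent.Helper79.NP
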